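import Pool.Agent.H27.LV.Basic

/-!
# MP_70ba79_ag: module CHB (the minors of `u` in the different bases of forms modulo `L`)
-/

set_option autoImplicit false

namespace Pool.Agent.H27.LV

open MvPolynomial SC

theorem chb (hUL : T_UL) (hHOM : T_HOM) (hALP : T_ALP) (hLAL : T_LAL) (hSPL : T_SPL) : T_CHB := by
  classical
  intro k K _ _ _ n d ι _ a φ D x b κ hφ hell hx0
  obtain ⟨e0, -, -⟩ := hSPL n d 0
  let e : Mon (n + 1) d ⊕ Mon n (d + 1) ≃ Mon (n + 1) (d + 1) := (Equiv.sumComm _ _).trans e0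
  obtain ⟨hadd, hsm, -⟩ := hHOM k K n d ι a φ D x hφ
  let u : MvPolynomial (Fin (n + 1)) K →+ MvPolynomial (Fin (n + 1)) K :=
    AddMonoidHom.mk' (fun g => uu D x a φ g) hadd
  have hu : ∀ g, u g = uu D x a φ g := fun g => rfl
  let U : Matrix (Mon n (d + 1)) (Mon (n + 1) d ⊕ Mon n (d + 1)) K :=
    Matrix.of fun p c => (uu D x a φ (mono K (e c).1)).coeff (fs (κ p).1)
  -- general principle
  have key : ∀ (g : MvPolynomial (Fin (n + 1)) K), g.IsHomogeneous (d + 1) →
      ∀ p, ∑ c, U p c * g.coeff (fs (e c).1) = (uu D x a φ g).coeff (fs (κ p).1) := by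
    intro g hg p
    have h1 : uu D x a φ g =
        ∑ q : Mon (n + 1) (d + 1), C (g.coeff (fs q.1)) * uu D x a φ (mono K q.1) := by
      rw [← hu]
      conv_lhs => rw [dec hg]
      rw [map_sum]
      exact Finset.sum_congr rfl fun q _ => by rw [hu, hsm]
    rw [h1, coeff_sum, ← e.sum_comp]
    refine Finset.sum_congr rfl fun c _ => ?_
    rw [coeff_C_mul]
    simp only [U, Matrix.of_apply]
    rw [mul_comm]
  let α : Matrix (Mon (n + 1) d ⊕ Mon n (d + 1)) (Mon (n + 1) d) K :=
    Matrix.of fun p c => (lin x * mono K c.1).coeff (fs (e p).1)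
  let B : Fin (n + 1) → Matrix (Mon (n + 1) d ⊕ Mon n (d + 1)) (Mon n (d + 1)) K := fun b' =>
    Matrix.of fun p q => (mono K (insm b' q)).coeff (fs (e p).1)
  have hUα : U * α = 0 := by
    ext p c
    rw [Matrix.mul_apply]
    have h1 := key (lin x * mono K c.1) (by
      have h2 : d + 1 = 1 + d := add_comm _ _
      exact h2 ▸ (isHomogeneous_lin x).mul (isHomogeneous_mono (K := K) c)) p
    simp only [α, Matrix.of_apply]
    rw [h1, hUL k K n d ι a φ D x hφ hell _ (isHomogeneous_mono c)]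
    simp
  have hUB : ∀ b', U * B b' = Matrix.of fun p q : Mon n (d + 1) =>
      (uu D x a φ (mono K (insm b' q))).coeff (fs (κ p).1) := by
    intro b'
    ext p q
    rw [Matrix.mul_apply]
    exact key _ (isHomogeneous_mono_insm b' q) p
  have hfc : ∀ b', Matrix.fromCols α (B b') = (alB d x b').submatrix e id := by
    intro b'
    ext p c
    rcases c with c | q
    · rfl
    · rfl
  have hdet : ∀ b', (Matrix.fromCols α (B b')).det = x b' ^ Fintype.card (Mon (n + 1) d) ∨
      (Matrix.fromCols α (B b')).det = - x b' ^ Fintype.card (Mon (n + 1) d) := by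
    intro b'
    rw [hfc b']
    exact hALP K n d x b' e
  have hx0' : x 0 ^ Fintype.card (Mon (n + 1) d) ≠ 0 := pow_ne_zero _ hx0
  have h0 : (Matrix.fromCols α (B 0)).det ≠ 0 := by
    rcases hdet 0 with h | h
    · rw [h]; exact hx0'
    · rw [h]; exact neg_ne_zero.mpr hx0'
  have hmain := hLAL K (Mon (n + 1) d) (Mon n (d + 1)) U α (B 0) (B b) hUα h0
  rw [hUB 0, hUB b] at hmain
  rcases hdet 0 with h | h <;> rcases hdet b with h' | h' <;> rw [h, h'] at hmain
  · exact ⟨1, Or.inl rfl, by rw [one_mul]; exact hmain⟩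
  · exact ⟨-1, Or.inr rfl, by linear_combination -hmain⟩
  · exact ⟨-1, Or.inr rfl, by linear_combination hmain⟩
  · exact ⟨1, Or.inl rfl, by linear_combination -hmain⟩

end Pool.Agent.H27.LV
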