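import Pool.Agent.H78.LV.Ge

/-!
# MP_70ba79_ag: module LB (the local estimate for normalised coordinates)
-/

set_option autoImplicit false

namespace Pool.Agent.H27.LV

open MvPolynomial SC Ge

theorem lb (hLDT : T_LDT) : T_LB := by
  intro k K _ _ _ n d ι _ _ a φ D v δ x b κ I hD hell hx hI
  let A : Matrix (Mon n (d + 1)) (Mon n (d + 1)) K := Matrix.of fun p q =>
    (mono K (insm b q) * lin (fun j => D (x j))).coeff (fs (κ p).1)
  let B : Matrix (Mon n (d + 1)) ι K := Matrix.of fun p i =>
    -((D (ell (a i) x) / ell (a i) x) *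
      (lin x * MvPolynomial.map (algebraMap k K) (φ i)).coeff (fs (κ p).1))
  let C' : Matrix ι (Mon n (d + 1)) K := Matrix.of fun i q =>
    eval (evk K (a i)) (mono K (insm b q))
  have hM : (Matrix.of fun p q : Mon n (d + 1) =>
      (uu D x a φ (mono K (insm b q))).coeff (fs (κ p).1)) = A + B * C' := by
    ext p q
    rw [Matrix.add_apply, Matrix.mul_apply]
    simp only [A, B, C', Matrix.of_apply, uu]
    rw [coeff_sub, Finset.mul_sum, coeff_sum, sub_eq_add_neg, ← Finset.sum_neg_distrib]
    congr 1
    refine Finset.sum_congr rfl fun i _ => ?_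
    have h1 : lin x * (C (eval (evk K (a i)) (mono K (insm b q)) *
        (D (ell (a i) x) / ell (a i) x)) * MvPolynomial.map (algebraMap k K) (φ i)) =
        C (eval (evk K (a i)) (mono K (insm b q)) * (D (ell (a i) x) / ell (a i) x)) *
          (lin x * MvPolynomial.map (algebraMap k K) (φ i)) := by ring
    rw [h1, coeff_C_mul]
    ring
  rw [hM]
  refine hLDT k K v _ _ A B C' δ I ?_ ?_ ?_
  · intro p q
    simp only [A, Matrix.of_apply]
    rw [mul_comm, coeff_lin_mul_mono]
    refine ge_sum v _ _ fun j _ => ?_
    split_ifs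
    · exact hD.1 _ (hx j)
    · exact ge_zero v _
  · intro p i
    simp only [B, Matrix.of_apply]
    have h1 : ge v 0 ((lin x * MvPolynomial.map (algebraMap k K) (φ i)).coeff (fs (κ p).1)) := by
      have h2 : lin x * MvPolynomial.map (algebraMap k K) (φ i) =
          ∑ j, C (x j) * MvPolynomial.map (algebraMap k K) (X j * φ i) := by
        simp only [lin, Finset.sum_mul, map_mul, map_X, mul_assoc]
      rw [h2, coeff_sum]
      refine ge_sum v _ _ fun j _ => ?_
      rw [coeff_C_mul, coeff_map]
      have := ge_mul v (ge_of_ord v (hx j)) (ge_algebraMap v (coeff (fs (κ p).1) (X j * φ i)))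
      simpa using this
    have hl : 0 ≤ v.ord (ell (a i) x) := ord_ell_nonneg v _ _ hx
    have h3 : ge v (if i ∈ I then δ - 1 else δ) (D (ell (a i) x) / ell (a i) x) := by
      by_cases h0 : D (ell (a i) x) = 0
      · rw [h0, zero_div]; exact ge_zero v _
      refine Or.inr ?_
      rw [v.ord_div h0 (hell i)]
      split_ifs with hi
      · have := ge_imp v (hD.2 _ (hell i)) h0
        omega
      · rw [hI] at hi
        have := ge_imp v (hD.1 _ hl) h0
        omega
    have := ge_neg v (ge_mul v h3 h1)
    rwa [add_zero] at this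
  · intro i q
    simp only [C', Matrix.of_apply]
    rw [eval_evk_mono]
    exact ge_algebraMap v _

end Pool.Agent.H27.LV
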