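import Pool.Agent.H78.LV.Ge

/-!
# MP_70ba79_ag: module LOC (the local estimate)
-/

set_option autoImplicit false

namespace Pool.Agent.H27.LV

open MvPolynomial SC Ge

/-- the coordinate with the largest pole -/
lemma exists_pole {k K : Type} [Field k] [Field K] [Algebra k K] {n : ℕ} (v : DV k K)
    (y : Fin n → K) : ∃ b : Fin (n + 1), xx y b ≠ 0 ∧ v.ord (xx y b) = -(poleOrder v y : ℤ) := by
  by_cases hP : poleOrder v y = 0
  · refine ⟨0, ?_, ?_⟩
    · simp [xx]
    · simp only [xx, Fin.cons_zero, hP, Nat.cast_zero, neg_zero]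
      exact v.ord_one
  · have hne : (Finset.univ : Finset (Fin n)).Nonempty := by
      by_contra h
      rw [Finset.not_nonempty_iff_eq_empty] at h
      apply hP
      unfold poleOrder
      rw [h]; rfl
    obtain ⟨j, -, hj⟩ := Finset.exists_mem_eq_sup Finset.univ hne
      (fun i => (-(v.ord (y i))).toNat)
    have hj' : poleOrder v y = (-(v.ord (y j))).toNat := hj
    refine ⟨j.succ, ?_, ?_⟩
    · simp only [xx, Fin.cons_succ]
      intro h0
      rw [h0, v.ord_zero] at hj'
      exact hP (by simpa using hj')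
    · simp only [xx, Fin.cons_succ]
      omega

lemma neg_pole_le {k K : Type} [Field k] [Field K] [Algebra k K] {n : ℕ} (v : DV k K)
    (y : Fin n → K) (j : Fin (n + 1)) : -(poleOrder v y : ℤ) ≤ v.ord (xx y j) := by
  refine Fin.cases ?_ (fun i => ?_) j
  · simp only [xx, Fin.cons_zero]
    rw [v.ord_one]; omega
  · simp only [xx, Fin.cons_succ]
    have h : (-(v.ord (y i))).toNat ≤ poleOrder v y :=
      Finset.le_sup (f := fun i => (-(v.ord (y i))).toNat) (Finset.mem_univ i)
    omega

theorem loc (hCHB : T_CHB) (hLB : T_LB) (hUSC : T_USC) : T_LOC := by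
  intro k K _ _ _ n d ι _ _ a φ D v δ y κ I hφ hD hell hI
  obtain ⟨b, hb0, hb⟩ := exists_pole v y
  set x : Fin (n + 1) → K := xx y with hxdef
  have hx0 : x 0 = 1 := by simp [hxdef, xx]
  let c : K := x b
  let x' : Fin (n + 1) → K := fun j => c⁻¹ * x j
  have hxx' : x = fun j => c * x' j := by
    funext j
    simp only [x', c]
    rw [mul_inv_cancel_left₀ hb0]
  have hx'ord : ∀ j, 0 ≤ v.ord (x' j) := by
    intro j
    by_cases h : x j = 0
    · simp only [x', h, mul_zero, v.ord_zero, le_refl]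
    · simp only [x']
      rw [v.ord_mul _ _ (inv_ne_zero hb0) h, v.ord_inv]
      have := neg_pole_le v y j
      rw [hb]
      rw [← hxdef] at this
      omega
  have hell' : ∀ i, ell (a i) x' = c⁻¹ * ell (a i) x := fun i => ell_smul (a i) c⁻¹ x
  have hellne : ∀ i, ell (a i) x' ≠ 0 := fun i => by
    rw [hell']; exact mul_ne_zero (inv_ne_zero hb0) (hell i)
  have hI' : ∀ i, i ∈ I ↔ 0 < v.ord (ell (a i) x') := by
    intro i
    rw [hI i, hell', v.ord_mul _ _ (inv_ne_zero hb0) (hell i), v.ord_inv, hb]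
    constructor <;> intro h <;> omega
  have hLB' := hLB k K n d ι a φ D v δ x' b κ I hD hellne hx'ord hI'
  obtain ⟨ε, hε, hch⟩ := hCHB k K n d ι a φ D x b κ hφ hell (by rw [hx0]; exact one_ne_zero)
  -- the minor for the coordinates `x` and `x'`
  have hdet : (Matrix.of fun p q : Mon n (d + 1) =>
      (uu D x a φ (mono K (insm b q))).coeff (fs (κ p).1)).det =
      c ^ Fintype.card (Mon n (d + 1)) * (Matrix.of fun p q : Mon n (d + 1) =>
      (uu D x' a φ (mono K (insm b q))).coeff (fs (κ p).1)).det := by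
    rw [← Matrix.det_smul]
    congr 1
    ext p q
    simp only [Matrix.of_apply, Matrix.smul_apply, smul_eq_mul]
    conv_lhs => rw [hxx']
    rw [hUSC k K n d ι a φ D x' c hφ hellne hb0 _ (isHomogeneous_mono_insm b q), coeff_C_mul]
  rw [hdet, hx0, one_pow, mul_one] at hch
  set Δ := (Matrix.of fun p q : Mon n (d + 1) =>
      (uu D x a φ (mono K (insm 0 q))).coeff (fs (κ p).1)).det with hΔ
  set Δ' := (Matrix.of fun p q : Mon n (d + 1) =>
      (uu D x' a φ (mono K (insm b q))).coeff (fs (κ p).1)).det with hΔ'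
  by_cases h0 : Δ = 0
  · exact Or.inl h0
  refine Or.inr ?_
  have hε0 : ε ≠ 0 := by rcases hε with h | h <;> rw [h] <;> simp
  have hεo : v.ord ε = 0 := by
    rcases hε with h | h <;> rw [h]
    · exact v.ord_one
    · exact v.ord_neg_one
  have hc0 : c ≠ 0 := hb0
  have hΔ'0 : Δ' ≠ 0 := by
    intro h
    rw [h, mul_zero, mul_zero] at hch
    exact mul_ne_zero h0 (pow_ne_zero _ hc0) hch
  have hord := congrArg v.ord hch
  rw [v.ord_mul _ _ h0 (pow_ne_zero _ hc0), v.ord_mul _ _ hε0
    (mul_ne_zero (pow_ne_zero _ hc0) hΔ'0), v.ord_mul _ _ (pow_ne_zero _ hc0) hΔ'0,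
    v.ord_pow, v.ord_pow, hεo] at hord
  have h1 := ge_imp v hLB' hΔ'0
  have hcb : v.ord c = -(poleOrder v y : ℤ) := hb
  rw [hcb] at hord
  have h2 : ((Fintype.card (Mon (n + 1) d) : ℤ) - Fintype.card (Mon n (d + 1))) * poleOrder v y =
      (Fintype.card (Mon (n + 1) d) : ℤ) * poleOrder v y -
        Fintype.card (Mon n (d + 1)) * poleOrder v y := by ring
  rw [h2]
  simp only [mul_neg] at hord
  linarith

end Pool.Agent.H27.LV
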