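import Pool.Agent.H27.LV.Basic
import Pool.Agent.H64.SC.Api

/-!
# MP_70ba79_ag: calculus of the predicate `ge` (vanishing to order at least `t`)
-/

set_option autoImplicit false

namespace Pool.Agent.H27.LV.Ge

open MvPolynomial SC

variable {k K : Type} [Field k] [Field K] [Algebra k K] (v : DV k K)

lemma ge_zero (t : ℤ) : ge v t 0 := Or.inl rfl

lemma ge_of_ord {t : ℤ} {x : K} (h : t ≤ v.ord x) : ge v t x := Or.inr h

lemma ge_mono {s t : ℤ} {x : K} (h : s ≤ t) (hx : ge v t x) : ge v s x :=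
  hx.imp id fun h' => h.trans h'

lemma ge_imp {t : ℤ} {x : K} (h : ge v t x) (hx : x ≠ 0) : t ≤ v.ord x := h.resolve_left hx

lemma ge_of_imp {t : ℤ} {x : K} (h : x ≠ 0 → t ≤ v.ord x) : ge v t x := by
  by_cases hx : x = 0
  · exact Or.inl hx
  · exact Or.inr (h hx)

lemma ge_add {t : ℤ} {x y : K} (hx : ge v t x) (hy : ge v t y) : ge v t (x + y) :=
  ge_of_imp v fun h => v.ord_add_ge (ge_imp v hx) (ge_imp v hy) h

lemma ge_sum {ι : Type*} {t : ℤ} (s : Finset ι) (f : ι → K) (h : ∀ i ∈ s, ge v t (f i)) :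
    ge v t (∑ i ∈ s, f i) :=
  ge_of_imp v fun h' => v.ord_sum_ge s f (fun i hi => ge_imp v (h i hi)) h'

lemma ge_mul {s t : ℤ} {x y : K} (hx : ge v s x) (hy : ge v t y) : ge v (s + t) (x * y) := by
  rcases eq_or_ne x 0 with h1 | h1
  · subst h1; rw [zero_mul]; exact ge_zero v _
  rcases eq_or_ne y 0 with h2 | h2
  · subst h2; rw [mul_zero]; exact ge_zero v _
  refine Or.inr ?_
  rw [v.ord_mul x y h1 h2]
  exact add_le_add (ge_imp v hx h1) (ge_imp v hy h2)

lemma ge_neg {t : ℤ} {x : K} (hx : ge v t x) : ge v t (-x) := by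
  rcases hx with h | h
  · subst h; rw [neg_zero]; exact ge_zero v _
  · exact Or.inr (by rw [v.ord_neg]; exact h)

lemma ge_algebraMap (c : k) : ge v 0 (algebraMap k K c) :=
  Or.inr (by rw [v.ord_algebraMap])

lemma ord_ell_nonneg {n : ℕ} (a : Fin (n + 1) → k) (x : Fin (n + 1) → K)
    (h : ∀ j, 0 ≤ v.ord (x j)) : 0 ≤ v.ord (ell a x) := by
  unfold ell
  exact v.ord_sum_nonneg _ _ fun j _ =>
    v.ord_mul_nonneg (by rw [v.ord_algebraMap]) (h j)

end Pool.Agent.H27.LV.Ge
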